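import Pool.Agent.E8helper48.RR.Stm

/-! MP_548f00_an, project RR of helper48, piece CON (contraction). -/

set_option autoImplicit false

namespace Pool.Agent.E8helper65.RR

open Filter Topology RR48

/-- the data of eight consecutive terms -/
structure Blk (A B D ka M : ℝ) (x0 x1 x2 x3 x4 x5 x6 x7 p q r s t u : ℝ) : Prop where
  hA : 0 ≤ A
  hB : 0 ≤ B
  hD : 0 < D
  hk : 0 < ka
  hk1 : ka ≤ 1
  hM : 1 ≤ M
  x0p : 0 < x0
  x1p : 0 < x1
  x2p : 0 < x2
  x3p : 0 < x3
  x4p : 0 < x4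
  x5k : ka ≤ x5
  x7k : ka ≤ x7
  hx2 : x2 = p * x0
  hx3 : x3 = q * x1
  hx4 : x4 = r * x2
  hx5 : x5 = s * x3
  hx6 : x6 = t * x4
  hx7 : x7 = u * x5
  hQ0 : q * (A + B * x2 + x1 + D * x0) = 1
  hQ1 : r * (A + B * x3 + x2 + D * x1) = 1
  hQ2 : s * (A + B * x4 + x3 + D * x2) = 1
  hQ3 : t * (A + B * x5 + x4 + D * x3) = 1
  hQ4 : u * (A + B * x6 + x5 + D * x4) = 1
  pp : 0 < p
  qp : 0 < q
  rp : 0 < r
  sp : 0 < s
  tp : 0 < t
  up : 0 < u
  p1 : p ≤ M
  q1 : q ≤ M
  r1 : r ≤ M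
  s1 : s ≤ M
  t1 : t ≤ M
  p2 : 1 ≤ p * M
  q2 : 1 ≤ q * M
  r2 : 1 ≤ r * M
  s2 : 1 ≤ s * M
  t2 : 1 ≤ t * M
  a1 : 1 ≤ s → t ≤ 1 → 1 ≤ u → False
  a2 : s ≤ 1 → 1 ≤ t → u ≤ 1 → False
  b1 : 1 ≤ q → r ≤ 1 → 1 ≤ s → False
  b2 : q ≤ 1 → 1 ≤ r → s ≤ 1 → False

theorem Blk.upper {A B D ka M x0 x1 x2 x3 x4 x5 x6 x7 p q r s t u : ℝ}
    (h : Blk A B D ka M x0 x1 x2 x3 x4 x5 x6 x7 p q r s t u) :
    u ≤ 1 + (1 - ka) * (M - 1) := by
  obtain ⟨hA, hB, hD, hk, hk1, hM, x0p, x1p, x2p, x3p, x4p, x5k, x7k, hx2, hx3, hx4, hx5, hx6, hx7,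
    hQ0, hQ1, hQ2, hQ3, hQ4, pp, qp, rp, sp, tp, up, p1, q1, r1, s1, t1, p2, q2, r2, s2, t2,
    a1, a2, b1, b2⟩ := h
  have x5p : 0 < x5 := lt_of_lt_of_le hk x5k
  have hKM : 0 ≤ (1 - ka) * (M - 1) := mul_nonneg (by linarith) (by linarith)
  by_cases hu : u ≤ 1
  · linarith
  rw [not_le] at hu
  -- the three inequalities
  have key : s ≤ t * M ∧ s ≤ r * M := by
    by_cases hs : s ≤ 1
    · exact ⟨hs.trans t2, hs.trans r2⟩
    rw [not_le] at hs
    have ht : 1 < t := by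
      by_contra hcon
      exact a1 hs.le (not_lt.1 hcon) hu.le
    refine ⟨s1.trans (by nlinarith), ?_⟩
    by_cases hr : 1 ≤ r
    · exact s1.trans (by nlinarith)
    rw [not_le] at hr
    have hq : q < 1 := by
      by_contra hcon
      exact b1 (not_lt.1 hcon) hr.le hs.le
    -- `t q < r`
    have i2 : t * (A + B * x5 + x4 + D * x3) = r * (A + B * x3 + x2 + D * x1) := by
      rw [hQ3, hQ1]
    have j1 : r * A ≤ t * A := mul_le_mul_of_nonneg_right (by linarith) hA
    have j2 : r * (B * x3) ≤ t * (B * x5) := by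
      rw [hx5]
      have : r ≤ t * s := by nlinarith
      have h3 : 0 ≤ B * x3 := mul_nonneg hB x3p.le
      nlinarith [mul_le_mul_of_nonneg_right this h3]
    have j3 : x4 < t * x4 := by nlinarith
    have j4 : t * (D * x3) < r * (D * x1) := by nlinarith
    have j5 : t * q < r := by
      have h5 : (t * q) * (D * x1) < r * (D * x1) := by
        have e : (t * q) * (D * x1) = t * (D * x3) := by rw [hx3]; ring
        rw [e]; exact j4
      exact lt_of_mul_lt_mul_right h5 (mul_pos hD x1p).le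
    have j6 : q < r := by nlinarith
    -- `s p < q`
    have i3 : s * (A + B * x4 + x3 + D * x2) = q * (A + B * x2 + x1 + D * x0) := by
      rw [hQ2, hQ0]
    have k1 : q * A ≤ s * A := mul_le_mul_of_nonneg_right (by linarith) hA
    have k2 : q * (B * x2) ≤ s * (B * x4) := by
      rw [hx4]
      have : q ≤ s * r := by nlinarith
      have h3 : 0 ≤ B * x2 := mul_nonneg hB x2p.le
      nlinarith [mul_le_mul_of_nonneg_right this h3]
    have k3 : x3 < s * x3 := by nlinarith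
    have k4 : s * (D * x2) < q * (D * x0) := by nlinarith
    have k5 : s * p < q := by
      have h5 : (s * p) * (D * x0) < q * (D * x0) := by
        have e : (s * p) * (D * x0) = s * (D * x2) := by rw [hx2]; ring
        rw [e]; exact k4
      exact lt_of_mul_lt_mul_right h5 (mul_pos hD x0p).le
    have k6 : s * p ≤ r := by linarith
    calc s = s * 1 := by ring
      _ ≤ s * (p * M) := mul_le_mul_of_nonneg_left p2 sp.le
      _ = (s * p) * M := by ring
      _ ≤ r * M := mul_le_mul_of_nonneg_right k6 (by linarith)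
  obtain ⟨hst, hsr⟩ := key
  set Q := A + B * x6 + x5 + D * x4 with hQ
  have hQp : 0 < Q := by
    by_contra hcon
    rw [not_lt] at hcon
    nlinarith
  have m1 : s * A ≤ M * A := mul_le_mul_of_nonneg_right s1 hA
  have m2 : s * (B * x4) ≤ M * (B * x6) := by
    have h3 : 0 ≤ B * x4 := mul_nonneg hB x4p.le
    have := mul_le_mul_of_nonneg_right hst h3
    rw [hx6]
    nlinarith
  have m3 : s * (D * x2) ≤ M * (D * x4) := by
    have h3 : 0 ≤ D * x2 := mul_nonneg hD.le x2p.le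
    have := mul_le_mul_of_nonneg_right hsr h3
    rw [hx4]
    nlinarith
  have m4 : 1 ≤ M * (Q - x5) + x5 := by
    rw [← hQ2, hQ]
    have e : s * (A + B * x4 + x3 + D * x2) =
      s * A + s * (B * x4) + s * x3 + s * (D * x2) := by ring
    rw [e, ← hx5]
    nlinarith
  have m5 : ka * Q ≤ x5 := by
    have e : x7 * Q = x5 := by
      rw [hx7]
      calc u * x5 * Q = x5 * (u * Q) := by ring
        _ = x5 := by rw [hQ4]; ring
    rw [← e]
    exact mul_le_mul_of_nonneg_right x7k hQp.le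
  have m6 : 1 ≤ (1 + (1 - ka) * (M - 1)) * Q := by
    have := mul_le_mul_of_nonneg_left m5 (by linarith : (0 : ℝ) ≤ M - 1)
    nlinarith
  calc u = u * 1 := by ring
    _ ≤ u * ((1 + (1 - ka) * (M - 1)) * Q) := mul_le_mul_of_nonneg_left m6 up.le
    _ = (1 + (1 - ka) * (M - 1)) * (u * Q) := by ring
    _ = 1 + (1 - ka) * (M - 1) := by rw [hQ4]; ring

theorem Blk.lower {A B D ka M x0 x1 x2 x3 x4 x5 x6 x7 p q r s t u : ℝ}
    (h : Blk A B D ka M x0 x1 x2 x3 x4 x5 x6 x7 p q r s t u) :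
    1 ≤ u * (1 + (1 - ka) * (M - 1)) := by
  obtain ⟨hA, hB, hD, hk, hk1, hM, x0p, x1p, x2p, x3p, x4p, x5k, x7k, hx2, hx3, hx4, hx5, hx6, hx7,
    hQ0, hQ1, hQ2, hQ3, hQ4, pp, qp, rp, sp, tp, up, p1, q1, r1, s1, t1, p2, q2, r2, s2, t2,
    a1, a2, b1, b2⟩ := h
  have x5p : 0 < x5 := lt_of_lt_of_le hk x5k
  have hKM : 0 ≤ (1 - ka) * (M - 1) := mul_nonneg (by linarith) (by linarith)
  by_cases hu : 1 ≤ u
  · nlinarith
  rw [not_le] at hu
  have key : t ≤ s * M ∧ r ≤ s * M := by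
    by_cases hs : 1 ≤ s
    · exact ⟨t1.trans (by nlinarith), r1.trans (by nlinarith)⟩
    rw [not_le] at hs
    have ht : t < 1 := by
      by_contra hcon
      exact a2 hs.le (not_lt.1 hcon) hu.le
    refine ⟨ht.le.trans s2, ?_⟩
    by_cases hr : r ≤ 1
    · exact hr.trans s2
    rw [not_le] at hr
    have hq : 1 < q := by
      by_contra hcon
      exact b2 (not_lt.1 hcon) hr.le hs.le
    have i2 : t * (A + B * x5 + x4 + D * x3) = r * (A + B * x3 + x2 + D * x1) := by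
      rw [hQ3, hQ1]
    have j1 : t * A ≤ r * A := mul_le_mul_of_nonneg_right (by linarith) hA
    have j2 : t * (B * x5) ≤ r * (B * x3) := by
      rw [hx5]
      have : t * s ≤ r := by nlinarith
      have h3 : 0 ≤ B * x3 := mul_nonneg hB x3p.le
      nlinarith [mul_le_mul_of_nonneg_right this h3]
    have j3 : t * x4 < x4 := by nlinarith
    have j4 : r * (D * x1) < t * (D * x3) := by nlinarith
    have j5 : r < t * q := by
      have h5 : r * (D * x1) < (t * q) * (D * x1) := by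
        have e : (t * q) * (D * x1) = t * (D * x3) := by rw [hx3]; ring
        rw [e]; exact j4
      exact lt_of_mul_lt_mul_right h5 (mul_pos hD x1p).le
    have j6 : r < q := by nlinarith
    have i3 : s * (A + B * x4 + x3 + D * x2) = q * (A + B * x2 + x1 + D * x0) := by
      rw [hQ2, hQ0]
    have k1 : s * A ≤ q * A := mul_le_mul_of_nonneg_right (by linarith) hA
    have k2 : s * (B * x4) ≤ q * (B * x2) := by
      rw [hx4]
      have : s * r ≤ q := by nlinarith
      have h3 : 0 ≤ B * x2 := mul_nonneg hB x2p.le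
      nlinarith [mul_le_mul_of_nonneg_right this h3]
    have k3 : s * x3 < x3 := by nlinarith
    have k4 : q * (D * x0) < s * (D * x2) := by nlinarith
    have k5 : q < s * p := by
      have h5 : q * (D * x0) < (s * p) * (D * x0) := by
        have e : (s * p) * (D * x0) = s * (D * x2) := by rw [hx2]; ring
        rw [e]; exact k4
      exact lt_of_mul_lt_mul_right h5 (mul_pos hD x0p).le
    calc r ≤ s * p := by linarith
      _ ≤ s * M := mul_le_mul_of_nonneg_left p1 sp.le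
  obtain ⟨hst, hsr⟩ := key
  set Q := A + B * x4 + x3 + D * x2 with hQ
  have hQp : 0 < Q := by
    by_contra hcon
    rw [not_lt] at hcon
    nlinarith
  have m1 : A ≤ (s * M) * A := by nlinarith [mul_le_mul_of_nonneg_right s2 hA]
  have m2 : B * x6 ≤ (s * M) * (B * x4) := by
    have h3 : 0 ≤ B * x4 := mul_nonneg hB x4p.le
    have := mul_le_mul_of_nonneg_right hst h3
    rw [hx6]
    nlinarith
  have m3 : D * x4 ≤ (s * M) * (D * x2) := by
    have h3 : 0 ≤ D * x2 := mul_nonneg hD.le x2p.le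
    have := mul_le_mul_of_nonneg_right hsr h3
    rw [hx4]
    nlinarith
  have m5 : ka * Q ≤ x3 := by
    have e : x5 * Q = x3 := by
      rw [hx5]
      calc s * x3 * Q = x3 * (s * Q) := by ring
        _ = x3 := by rw [hQ2]; ring
    calc ka * Q ≤ x5 * Q := mul_le_mul_of_nonneg_right x5k hQp.le
      _ = x3 := e
  have m4 : A + B * x6 + x5 + D * x4 ≤ s * (M * Q - (M - 1) * x3) := by
    have e : s * (M * Q - (M - 1) * x3) =
        (s * M) * A + (s * M) * (B * x4) + s * x3 + (s * M) * (D * x2) := by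
      rw [hQ]; ring
    rw [e, ← hx5]
    linarith
  have m6 : s * (M * Q - (M - 1) * x3) ≤ 1 + (1 - ka) * (M - 1) := by
    have h1 := mul_le_mul_of_nonneg_left m5 (by linarith : (0 : ℝ) ≤ M - 1)
    have h2 : M * Q - (M - 1) * x3 ≤ (1 + (1 - ka) * (M - 1)) * Q := by nlinarith
    calc s * (M * Q - (M - 1) * x3) ≤ s * ((1 + (1 - ka) * (M - 1)) * Q) :=
          mul_le_mul_of_nonneg_left h2 sp.le
      _ = (1 + (1 - ka) * (M - 1)) * (s * Q) := by ring
      _ = _ := by rw [hQ2]; ring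
  calc (1 : ℝ) = u * (A + B * x6 + x5 + D * x4) := hQ4.symm
    _ ≤ u * (1 + (1 - ka) * (M - 1)) := mul_le_mul_of_nonneg_left (m4.trans m6) up.le

theorem con_aux (A B D ka : ℝ) (x : ℕ → ℝ) (hA : 0 ≤ A) (hB : 0 ≤ B) (hD : 0 < D) (hk : 0 < ka)
    (hk2 : ka ≤ 1 / 2) (hsol : IsSol 0 A B D x) (hlow : ∀ n, ka ≤ x n) (hup : ∀ n, x n ≤ 1)
    (h1 : ∀ n, ¬ (x n ≤ x (n + 2) ∧ x (n + 3) ≤ x (n + 1) ∧ x (n + 2) ≤ x (n + 4)))
    (h2 : ∀ n, ¬ (x (n + 2) ≤ x n ∧ x (n + 1) ≤ x (n + 3) ∧ x (n + 4) ≤ x (n + 2))) :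
    Conv x := by
  have xp : ∀ n, 0 < x n := fun n => lt_of_lt_of_le hk (hlow n)
  -- the ratios
  set ρ : ℕ → ℝ := fun n => x (n + 2) / x n with hρ
  have ρx : ∀ n, x (n + 2) = ρ n * x n := fun n => by
    rw [hρ]; field_simp [(xp n).ne']
  have ρp : ∀ n, 0 < ρ n := fun n => div_pos (xp _) (xp _)
  have ρQ : ∀ n, ρ (n + 1) * (A + B * x (n + 2) + x (n + 1) + D * x n) = 1 := by
    intro n
    have hd := hsol.den n
    have hs := hsol.step n
    rw [zero_add] at hs
    have : ρ (n + 1) = x (n + 3) / x (n + 1) := rfl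
    rw [this, hs]
    field_simp [(xp (n + 1)).ne', hd.ne']
  have ρle : ∀ n, ρ n ≤ 1 / ka := by
    intro n
    rw [hρ]
    exact div_le_div₀ zero_le_one (hup _) hk (hlow _)
  have ρge : ∀ n, 1 ≤ ρ n * (1 / ka) := by
    intro n
    have h3 : ka ≤ ρ n := by
      rw [hρ]
      simp only
      rw [le_div_iff₀ (xp n)]
      have := hlow (n + 2)
      have := hup n
      nlinarith
    rw [mul_one_div, le_div_iff₀ hk]
    linarith
  have ρ1 : ∀ n, 1 ≤ ρ n → x n ≤ x (n + 2) := by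
    intro n h
    rw [ρx n]
    nlinarith [xp n]
  have ρ2 : ∀ n, ρ n ≤ 1 → x (n + 2) ≤ x n := by
    intro n h
    rw [ρx n]
    nlinarith [xp n]
  -- the rate
  set θ : ℝ := (1 - ka) ^ ((1 : ℝ) / 5) with hθ
  have hb : (0 : ℝ) < 1 - ka := by linarith
  have hθp : 0 < θ := Real.rpow_pos_of_pos hb _
  have hθ5 : θ ^ 5 = 1 - ka := by
    rw [hθ, ← Real.rpow_natCast, ← Real.rpow_mul hb.le]
    norm_num
  have hθ1 : θ < 1 := by
    by_contra hcon
    rw [not_lt] at hcon
    have := one_le_pow₀ hcon (n := 5)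
    linarith
  set C : ℝ := 1 / (ka * θ ^ 4) with hC
  have hCp : 0 < C := by positivity
  have hbase : ∀ n, n ≤ 4 → 1 / ka ≤ 1 + C * θ ^ n := by
    intro n hn
    have e : C * θ ^ 4 = 1 / ka := by
      rw [hC]; field_simp
    have : θ ^ 4 ≤ θ ^ n := pow_le_pow_of_le_one hθp.le hθ1.le hn
    have := mul_le_mul_of_nonneg_left this hCp.le
    linarith
  have main : ∀ n, ρ n ≤ 1 + C * θ ^ n ∧ 1 ≤ ρ n * (1 + C * θ ^ n) := by
    intro n
    induction n using Nat.strong_induction_on with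
    | _ n ih =>
    by_cases hn : n ≤ 4
    · refine ⟨(ρle n).trans (hbase n hn), (ρge n).trans ?_⟩
      exact mul_le_mul_of_nonneg_left (hbase n hn) (ρp n).le
    obtain ⟨m, rfl⟩ : ∃ m, n = m + 5 := ⟨n - 5, by omega⟩
    have hmono : ∀ j, j ≤ 4 → 1 + C * θ ^ (m + j) ≤ 1 + C * θ ^ m := by
      intro j _
      have : θ ^ (m + j) ≤ θ ^ m := pow_le_pow_of_le_one hθp.le hθ1.le (by omega)
      have := mul_le_mul_of_nonneg_left this hCp.le
      linarith
    have c1 : ∀ j, j ≤ 4 → ρ (m + j) ≤ 1 + C * θ ^ m := fun j hj =>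
      (ih (m + j) (by omega)).1.trans (hmono j hj)
    have c2 : ∀ j, j ≤ 4 → 1 ≤ ρ (m + j) * (1 + C * θ ^ m) := fun j hj =>
      (ih (m + j) (by omega)).2.trans (mul_le_mul_of_nonneg_left (hmono j hj) (ρp _).le)
    have hM : 1 ≤ 1 + C * θ ^ m := by
      have : 0 ≤ C * θ ^ m := by positivity
      linarith
    have blk : Blk A B D ka (1 + C * θ ^ m) (x m) (x (m + 1)) (x (m + 2)) (x (m + 3)) (x (m + 4))
        (x (m + 5)) (x (m + 6)) (x (m + 7)) (ρ m) (ρ (m + 1)) (ρ (m + 2)) (ρ (m + 3)) (ρ (m + 4))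
        (ρ (m + 5)) :=
      { hA := hA
        hB := hB
        hD := hD
        hk := hk
        hk1 := by linarith
        hM := hM
        x0p := xp _
        x1p := xp _
        x2p := xp _
        x3p := xp _
        x4p := xp _
        x5k := hlow _
        x7k := hlow _
        hx2 := ρx m
        hx3 := ρx (m + 1)
        hx4 := ρx (m + 2)
        hx5 := ρx (m + 3)
        hx6 := ρx (m + 4)
        hx7 := ρx (m + 5)
        hQ0 := ρQ m
        hQ1 := ρQ (m + 1)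
        hQ2 := ρQ (m + 2)
        hQ3 := ρQ (m + 3)
        hQ4 := ρQ (m + 4)
        pp := ρp _
        qp := ρp _
        rp := ρp _
        sp := ρp _
        tp := ρp _
        up := ρp _
        p1 := c1 0 (by norm_num)
        q1 := c1 1 (by norm_num)
        r1 := c1 2 (by norm_num)
        s1 := c1 3 (by norm_num)
        t1 := c1 4 (by norm_num)
        p2 := c2 0 (by norm_num)
        q2 := c2 1 (by norm_num)
        r2 := c2 2 (by norm_num)
        s2 := c2 3 (by norm_num)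
        t2 := c2 4 (by norm_num)
        a1 := fun hs ht hu => h1 (m + 3) ⟨ρ1 _ hs, ρ2 (m + 4) ht, ρ1 (m + 5) hu⟩
        a2 := fun hs ht hu => h2 (m + 3) ⟨ρ2 _ hs, ρ1 (m + 4) ht, ρ2 (m + 5) hu⟩
        b1 := fun hs ht hu => h1 (m + 1) ⟨ρ1 _ hs, ρ2 (m + 2) ht, ρ1 (m + 3) hu⟩
        b2 := fun hs ht hu => h2 (m + 1) ⟨ρ2 _ hs, ρ1 (m + 2) ht, ρ2 (m + 3) hu⟩ }
    have e : 1 + (1 - ka) * (1 + C * θ ^ m - 1) = 1 + C * θ ^ (m + 5) := by
      rw [pow_add, hθ5]; ring
    have u1 := blk.upper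
    have u2 := blk.lower
    rw [e] at u1 u2
    exact ⟨u1, u2⟩
  have hdist : ∀ n, dist (x n) (x (n + 2)) ≤ C * θ ^ n := by
    intro n
    obtain ⟨m1, m2⟩ := main n
    have hc : 0 ≤ C * θ ^ n := by positivity
    have hx1 := hup n
    have hx0 := xp n
    rw [Real.dist_eq, ρx n, abs_le]
    by_cases h : ρ n ≤ 1
    · have h5 : 1 - ρ n ≤ C * θ ^ n := by nlinarith [ρp n]
      constructor <;> nlinarith
    · rw [not_le] at h
      constructor <;> nlinarith
  have hev : ∀ i : ℕ, ∃ a, Tendsto (fun k => x (2 * k + i)) atTop (𝓝 a) := by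
    intro i
    have hc : CauchySeq (fun k => x (2 * k + i)) := by
      refine cauchySeq_of_le_geometric (θ ^ 2) C (by nlinarith) ?_
      intro k
      have h3 := hdist (2 * k + i)
      have e : 2 * (k + 1) + i = 2 * k + i + 2 := by ring
      rw [e]
      refine h3.trans (mul_le_mul_of_nonneg_left ?_ hCp.le)
      rw [← pow_mul]
      exact pow_le_pow_of_le_one hθp.le hθ1.le (by omega)
    exact cauchySeq_tendsto_of_complete hc
  obtain ⟨a, ha⟩ := hev 0
  obtain ⟨b, hb'⟩ := hev 1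
  exact ⟨a, b, by simpa using ha, hb'⟩

theorem t_CON : RR48.S_CON := by
  intro A B D ka x hA hB hD hk hsol hlow hup h1 h2
  exact con_aux A B D (min ka (1 / 2)) x hA hB hD (lt_min hk (by norm_num)) (min_le_right _ _)
    hsol (fun n => (min_le_left _ _).trans (hlow n)) hup h1 h2

end Pool.Agent.E8helper65.RR
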