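import Pool.Agent.E8helper48.RR.Stm4

/-! MP_548f00_an, project RR of helper48, piece N2UP. -/

set_option autoImplicit false

namespace Pool.Agent.E8helper65.RR

/-- the facts on `u` -/
lemma u_facts {al D z I u : ℝ} (hal : 0 < al) (hD : 0 < D) (hz : 0 < z) (hz1 : z < 1)
    (heq : z * ((D + 1) * z) = al + z) (hI : 0 < I) (hIz : I ≤ z)
    (hu : z * D * u = z * D * z - (1 - z) * (z - I)) : 1 - z < z * D ∧ I ≤ u ∧ u ≤ z := by
  have h1 : 1 - z < z * D := by
    have h2 : 0 < z * (z * D - (1 - z)) := by nlinarith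
    have h3 := (pos_iff_pos_of_mul_pos h2).1 hz
    linarith
  have hzD : 0 < z * D := mul_pos hz hD
  refine ⟨h1, ?_, ?_⟩
  · have h4 : 0 ≤ z * D * (u - I) := by
      have e : z * D * (u - I) = (z - I) * (z * D - (1 - z)) := by linear_combination hu
      rw [e]
      exact mul_nonneg (by linarith) (by linarith)
    have h5 := nonneg_of_mul_nonneg_right h4 hzD
    linarith
  · have h4 : 0 ≤ z * D * (z - u) := by
      have e : z * D * (z - u) = (1 - z) * (z - I) := by linear_combination -hu
      rw [e]
      exact mul_nonneg (by linarith) (by linarith)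
    have h5 := nonneg_of_mul_nonneg_right h4 hzD
    linarith

/-- the last step -/
lemma last {al D I S u Y y2 y3 : ℝ} (hal : 0 < al) (hI : 0 < I) (hD : 0 < D)
    (hIa : al ≤ D * I) (hS : 0 < S) (hu : 0 < u) (hY : 0 < Y) (hy2 : I ≤ y2) (hy3 : 0 < y3)
    (h3 : y3 * (Y + D * I) ≤ al + Y) (hSe : S * (y3 + D * y2) = al + y3)
    (hG : (D * I - al) * (u + D * I) * ((1 + al) * Y + al * (1 + D * I)) ≤
      (D * y2 - al) * (Y + D * I) * ((1 + al) * u + al * (1 + D * I))) :
    S * (D * I * (u + D * I) + al + u) ≤ al * (u + D * I) + al + u := by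
  have hDI : 0 < D * I := mul_pos hD hI
  have hMY : 0 < (1 + al) * Y + al * (1 + D * I) := by positivity
  have hMu : 0 < (1 + al) * u + al * (1 + D * I) := by positivity
  have hX : 0 < Y + D * I := by positivity
  have e1 : (1 - S) * (al + y3) = S * (D * y2 - al) := by linear_combination -hSe
  have hDy2 : 0 ≤ D * y2 - al := by
    have := mul_le_mul_of_nonneg_left hy2 hD.le
    linarith
  have h1S : 0 ≤ 1 - S := by
    have h : 0 ≤ (1 - S) * (al + y3) := by rw [e1]; exact mul_nonneg hS.le hDy2
    exact nonneg_of_mul_nonneg_left h (by positivity)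
  have h4 : (al + y3) * (Y + D * I) ≤ (1 + al) * Y + al * (1 + D * I) := by nlinarith
  have h5 : S * (D * y2 - al) * (Y + D * I) ≤ (1 - S) * ((1 + al) * Y + al * (1 + D * I)) := by
    have := mul_le_mul_of_nonneg_left h4 h1S
    calc S * (D * y2 - al) * (Y + D * I) = (1 - S) * ((al + y3) * (Y + D * I)) := by
          rw [← e1]; ring
      _ ≤ _ := this
  have h6 : S * ((D * I - al) * (u + D * I)) * ((1 + al) * Y + al * (1 + D * I)) ≤
      (1 - S) * ((1 + al) * u + al * (1 + D * I)) * ((1 + al) * Y + al * (1 + D * I)) := by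
    calc S * ((D * I - al) * (u + D * I)) * ((1 + al) * Y + al * (1 + D * I)) =
          S * ((D * I - al) * (u + D * I) * ((1 + al) * Y + al * (1 + D * I))) := by ring
      _ ≤ S * ((D * y2 - al) * (Y + D * I) * ((1 + al) * u + al * (1 + D * I))) :=
          mul_le_mul_of_nonneg_left hG hS.le
      _ = S * (D * y2 - al) * (Y + D * I) * ((1 + al) * u + al * (1 + D * I)) := by ring
      _ ≤ (1 - S) * ((1 + al) * Y + al * (1 + D * I)) * ((1 + al) * u + al * (1 + D * I)) :=
          mul_le_mul_of_nonneg_right h5 hMu.le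
      _ = _ := by ring
  have h7 : S * ((D * I - al) * (u + D * I)) ≤ (1 - S) * ((1 + al) * u + al * (1 + D * I)) :=
    le_of_mul_le_mul_right h6 hMY
  nlinarith [h7]

theorem t_N2UP : RR48.S_N2UP := by
  intro al D z I S u y0 y1 y2 y3 y4 hal hD hz hz1 heq hI hIz hIa hS hu hy0 hy1 hy1z hy2 hy3 hy4z
    e3 e4 eS
  obtain ⟨hzD1, hIu, huz⟩ := u_facts hal hD hz hz1 heq hI hIz hu
  have hDI : 0 < D * I := mul_pos hD hI
  have hu0 : 0 < u := hI.trans_le hIu
  have hY0 : 0 < y1 := hI.trans_le hy1
  have hy20 : 0 < y2 := hI.trans_le hy2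
  have h3 : y3 * (y1 + D * I) ≤ al + y1 := by
    rw [← e3]
    have := mul_le_mul_of_nonneg_left hy0 hD.le
    exact mul_le_mul_of_nonneg_left (by linarith) hy3.le
  refine last hal hI hD hIa hS hu0 hY0 hy2 hy3 h3 eS ?_
  have hMu : 0 < (1 + al) * u + al * (1 + D * I) := by positivity
  have hX : 0 < y1 + D * I := by positivity
  have hDIa : 0 ≤ D * I - al := by linarith
  -- the comparison of the two fractions
  have ecmp : (y1 + D * I) * ((1 + al) * u + al * (1 + D * I)) -
      (u + D * I) * ((1 + al) * y1 + al * (1 + D * I)) = (y1 - u) * (al - D * I) := by ring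
  rcases le_or_gt y1 u with hc | hc
  · have hDy2 : D * I - al ≤ D * y2 - al := by
      have := mul_le_mul_of_nonneg_left hy2 hD.le
      linarith
    have h1 : (D * I - al) * ((y1 + D * I) * ((1 + al) * u + al * (1 + D * I))) ≤
        (D * y2 - al) * ((y1 + D * I) * ((1 + al) * u + al * (1 + D * I))) :=
      mul_le_mul_of_nonneg_right hDy2 (mul_pos hX hMu).le
    have h2 : 0 ≤ (y1 - u) * (al - D * I) := mul_nonneg_of_nonpos_of_nonpos (by linarith) (by linarith)
    have h4 : (D * I - al) * ((u + D * I) * ((1 + al) * y1 + al * (1 + D * I))) ≤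
        (D * I - al) * ((y1 + D * I) * ((1 + al) * u + al * (1 + D * I))) :=
      mul_le_mul_of_nonneg_left (by linarith) hDIa
    calc (D * I - al) * (u + D * I) * ((1 + al) * y1 + al * (1 + D * I)) =
          (D * I - al) * ((u + D * I) * ((1 + al) * y1 + al * (1 + D * I))) := by ring
      _ ≤ _ := h4.trans h1
      _ = _ := by ring
  · obtain ⟨g, hg⟩ : ∃ g : ℝ, g = y1 - u := ⟨_, rfl⟩
    have hg0 : 0 < g := by rw [hg]; linarith
    have h1z : 0 < 1 - z := by linarith
    -- the lower bound of `y2`
    have hlow : (1 - z) * I + z * D * g ≤ (1 - z) * y2 := by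
      have h1 : z * (y2 + D * y1) ≤ al + y2 := by
        rw [← e4]
        exact mul_le_mul_of_nonneg_right hy4z (by positivity)
      have e : (1 - z) * I + z * D * g = z * D * y1 - al := by
        rw [hg]
        linear_combination -hu - heq
      rw [e]
      linarith
    have hlow2 : (1 - z) * (D * I - al) + z * D * D * g ≤ (1 - z) * (D * y2 - al) := by
      have := mul_le_mul_of_nonneg_left hlow hD.le
      nlinarith [this]
    have hXM := mul_pos hX hMu
    have h1 : ((1 - z) * (D * I - al) + z * D * D * g) *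
        ((y1 + D * I) * ((1 + al) * u + al * (1 + D * I))) ≤
        (1 - z) * (D * y2 - al) * ((y1 + D * I) * ((1 + al) * u + al * (1 + D * I))) :=
      mul_le_mul_of_nonneg_right hlow2 hXM.le
    -- the main inequality
    have h2 : (1 - z) * ((D * I - al) * (D * I - al)) ≤
        z * D * D * ((y1 + D * I) * ((1 + al) * u + al * (1 + D * I))) := by
      have a1 : D * I - al ≤ y1 + D * I := by linarith
      have a2 : D * I - al ≤ D * ((1 + al) * u + al * (1 + D * I)) := by
        have b1 : I ≤ (1 + al) * u + al * (1 + D * I) := by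
          have : 0 < al * u + al * (1 + D * I) := by positivity
          nlinarith
        have := mul_le_mul_of_nonneg_left b1 hD.le
        linarith
      have a3 : (D * I - al) * (D * I - al) ≤
          (y1 + D * I) * (D * ((1 + al) * u + al * (1 + D * I))) :=
        mul_le_mul a1 a2 hDIa hX.le
      have a4 : 0 ≤ (y1 + D * I) * (D * ((1 + al) * u + al * (1 + D * I))) := by positivity
      calc (1 - z) * ((D * I - al) * (D * I - al)) ≤
            (1 - z) * ((y1 + D * I) * (D * ((1 + al) * u + al * (1 + D * I)))) :=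
            mul_le_mul_of_nonneg_left a3 h1z.le
        _ ≤ (z * D) * ((y1 + D * I) * (D * ((1 + al) * u + al * (1 + D * I)))) :=
            mul_le_mul_of_nonneg_right hzD1.le a4
        _ = _ := by ring
    have h4 : (1 - z) * ((D * I - al) * (u + D * I) * ((1 + al) * y1 + al * (1 + D * I))) ≤
        ((1 - z) * (D * I - al) + z * D * D * g) *
        ((y1 + D * I) * ((1 + al) * u + al * (1 + D * I))) := by
      have h5 := mul_le_mul_of_nonneg_left h2 hg0.le
      have e : (1 - z) * ((D * I - al) * (u + D * I) * ((1 + al) * y1 + al * (1 + D * I))) =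
          (1 - z) * (D * I - al) * ((y1 + D * I) * ((1 + al) * u + al * (1 + D * I))) +
          g * ((1 - z) * ((D * I - al) * (D * I - al))) := by
        rw [hg]
        linear_combination (-(1 - z) * (D * I - al)) * ecmp
      rw [e]
      linarith
    have h6 : (1 - z) * ((D * I - al) * (u + D * I) * ((1 + al) * y1 + al * (1 + D * I))) ≤
        (1 - z) * ((D * y2 - al) * (y1 + D * I) * ((1 + al) * u + al * (1 + D * I))) := by
      calc _ ≤ _ := h4.trans h1
        _ = _ := by ring
    exact le_of_mul_le_mul_left h6 h1z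

theorem t_N2UP0 : RR48.S_N2UP0 := by
  intro al D z I S u y2 y3 hal hD hz hz1 heq hI hIz hIa hS hu hy2 hy3 hy3z eS
  obtain ⟨hzD1, hIu, huz⟩ := u_facts hal hD hz hz1 heq hI hIz hu
  have hDI : 0 < D * I := mul_pos hD hI
  have hu0 : 0 < u := hI.trans_le hIu
  have hzD : 0 < z * D := mul_pos hz hD
  have hP : 0 < u + D * I := by positivity
  have e1 : (1 - S) * (al + y3) = S * (D * y2 - al) := by linear_combination -eS
  have hDy2 : D * I - al ≤ D * y2 - al := by
    have := mul_le_mul_of_nonneg_left hy2 hD.le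
    linarith
  have h0 : 0 ≤ D * I - al := by linarith
  have h1S : 0 ≤ 1 - S := by
    have h : 0 ≤ (1 - S) * (al + y3) := by rw [e1]; exact mul_nonneg hS.le (h0.trans hDy2)
    exact nonneg_of_mul_nonneg_left h (by positivity)
  have h1 : S * (D * I - al) ≤ (1 - S) * (al + z) := by
    calc S * (D * I - al) ≤ S * (D * y2 - al) := mul_le_mul_of_nonneg_left hDy2 hS.le
      _ = (1 - S) * (al + y3) := e1.symm
      _ ≤ (1 - S) * (al + z) := mul_le_mul_of_nonneg_left (by linarith) h1S
  have h2 : (al + z) * (u + D * I) ≤ (1 + al) * u + al * (1 + D * I) := by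
    have h3 : 0 ≤ z * D * ((1 - z) * u + al - z * D * I) := by
      have e : z * D * ((1 - z) * u + al - z * D * I) =
          (z - I) * ((z * D - (1 - z)) * (z * D + (1 - z))) := by
        linear_combination (1 - z) * hu - (z * D) * heq
      rw [e]
      exact mul_nonneg (by linarith) (mul_nonneg (by linarith) (by linarith))
    have h4 := nonneg_of_mul_nonneg_right h3 hzD
    nlinarith
  have h5 : S * (D * I - al) * (u + D * I) ≤ (1 - S) * ((1 + al) * u + al * (1 + D * I)) := by
    calc S * (D * I - al) * (u + D * I) ≤ (1 - S) * (al + z) * (u + D * I) :=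
          mul_le_mul_of_nonneg_right h1 hP.le
      _ = (1 - S) * ((al + z) * (u + D * I)) := by ring
      _ ≤ _ := mul_le_mul_of_nonneg_left h2 h1S
  nlinarith [h5]

end Pool.Agent.E8helper65.RR
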